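import Pool.Agent.H41.AUG.Stmts

set_option autoImplicit false

namespace Pool.Agent.H152.AUG

open Pool.Agent.H41.AUG Finset

theorem arith_aux (E K α β A B P : ℤ) (hE : 1 ≤ E) (hα : 0 ≤ α) (hαβ : α ≤ β) (hK : α + β ≤ K)
    (h2K : 2 * K ≤ E) (hA : E ^ 2 - α ^ 2 ≤ A * E) (hB : E ^ 2 - β ^ 2 ≤ B * E)
    (hP : A * (B - α) ≤ P) : (E - K) * (2 * E + K) ≤ 2 * P := by
  have hβ : 0 ≤ β := hα.trans hαβ
  have hE0 : 0 ≤ E := by linarith
  have hαE : 0 ≤ E - 2 * (α + β) := by linarith
  have h1 : 0 ≤ E ^ 2 - α ^ 2 := by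
    have : 0 ≤ (E - α) * (E + α) := mul_nonneg (by linarith) (by linarith)
    nlinarith
  have h2 : 0 ≤ E ^ 2 - β ^ 2 - α * E := by
    have e1 : 0 ≤ (E - 2 * (α + β)) * E := mul_nonneg hαE hE0
    have e2 : 0 ≤ (E - β) * (E + β) := mul_nonneg (by linarith) (by linarith)
    have e3 : 0 ≤ β * E := mul_nonneg hβ hE0
    nlinarith
  have h3 : (E ^ 2 - α ^ 2) * (E ^ 2 - β ^ 2 - α * E) ≤ (A * E) * ((B - α) * E) :=
    mul_le_mul hA (by linarith) h2 (by linarith)
  have h4 : (A * E) * ((B - α) * E) = E ^ 2 * (A * (B - α)) := by ring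
  have h5 : E ^ 2 * (E ^ 2 - α * E - α ^ 2 - β ^ 2) ≤
      (E ^ 2 - α ^ 2) * (E ^ 2 - β ^ 2 - α * E) := by
    have e1 : 0 ≤ α ^ 3 * E := mul_nonneg (pow_nonneg hα 3) hE0
    have e2 : 0 ≤ α ^ 2 * β ^ 2 := by positivity
    nlinarith
  have hE2 : 0 < E ^ 2 := by positivity
  have h6 : E ^ 2 * (E ^ 2 - α * E - α ^ 2 - β ^ 2) ≤ E ^ 2 * P := by
    refine h5.trans (h3.trans ?_)
    rw [h4]
    exact mul_le_mul_of_nonneg_left hP hE2.le
  have h7 : E ^ 2 - α * E - α ^ 2 - β ^ 2 ≤ P := le_of_mul_le_mul_left h6 hE2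
  have h8 : 0 ≤ (β - α) * (E - (β - α)) := mul_nonneg (by linarith) (by linarith)
  have h9 : 0 ≤ (K - (α + β)) * E := mul_nonneg (by linarith) hE0
  have h10 : 0 ≤ (K - (α + β)) * (K + (α + β)) := mul_nonneg (by linarith) (by linarith)
  nlinarith

/-- the lower bound for the product of the number of the other rows with `E` -/
theorem arith_low (e m α a p : ℤ) (hm : 1 ≤ m) (ha : a = e + m + α)
    (hαe : α ≤ e - 1) (hp : p * (e - 1) ≤ a * α) :
    (e - 1) ^ 2 - α ^ 2 ≤ (a - p) * (e - 1) := by
  have h1 : 0 ≤ (a - (e - 1 + α)) * (e - 1 - α) := mul_nonneg (by linarith) (by linarith)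
  nlinarith

theorem arith : S_ARITH := by
  intro e k m α β a b p q P he hm hα hβ ha hb hk h2k hp hq hpa hqb h1 h2
  have hA := arith_low e m α a p hm ha (by linarith) hpa
  have hB := arith_low e m β b q hm hb (by linarith) hqb
  have e1 : (e - k) * (2 * e + k - 3) = ((e - 1) - (k - 1)) * (2 * (e - 1) + (k - 1)) := by ring
  rw [e1]
  rcases le_total α β with h | h
  · exact arith_aux (e - 1) (k - 1) α β (a - p) (b - q) P (by linarith) hα h (by linarith)
      (by linarith) hA hB h1
  · exact arith_aux (e - 1) (k - 1) β α (b - q) (a - p) P (by linarith) hβ h (by linarith)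
      (by linarith) hB hA h2

theorem once : S_ONCE := by
  intro n ι _ _ f S Y T' hTY hcov
  -- one row
  have hrow : ∀ s ∈ S, (T'.card : ℤ) - (Fintype.card ι - Y.card) ≤
      ((T'.filter fun c => (univ.filter fun u => f u s = c).card = 1).card : ℤ) := by
    intro s hs
    have hge : ∀ c ∈ Y, 1 ≤ (univ.filter fun u => f u s = c).card := by
      intro c hc
      obtain ⟨u, hu⟩ := hcov s hs c hc
      exact card_pos.2 ⟨u, mem_filter.2 ⟨mem_univ _, hu⟩⟩
    have hsum : ∑ c ∈ Y, (univ.filter fun u => f u s = c).card ≤ Fintype.card ι := by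
      have h1 : ∑ c ∈ Y, (univ.filter fun u => f u s = c).card =
          ((univ : Finset ι).filter fun u => f u s ∈ Y).card := by
        have h2 := card_eq_sum_card_fiberwise (f := fun u : ι => f u s)
          (s := (univ : Finset ι).filter fun u => f u s ∈ Y) (t := Y) (by
            intro u hu
            exact (mem_filter.1 hu).2)
        rw [h2]
        refine sum_congr rfl fun c hc => ?_
        congr 1
        ext u
        simp only [mem_filter, mem_univ, true_and]
        constructor
        · intro h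
          exact ⟨h ▸ hc, h⟩
        · intro h
          exact h.2
      rw [h1]
      exact (card_filter_le _ _).trans (le_of_eq card_univ)
    -- the integers
    have hint : ∑ c ∈ Y, (((univ.filter fun u => f u s = c).card : ℤ) - 1) ≤
        Fintype.card ι - Y.card := by
      rw [sum_sub_distrib, sum_const, nsmul_eq_mul, mul_one]
      have : ((∑ c ∈ Y, (univ.filter fun u => f u s = c).card : ℕ) : ℤ) ≤ Fintype.card ι := by
        exact_mod_cast hsum
      push_cast at this
      linarith
    have hT : ∑ c ∈ T', (((univ.filter fun u => f u s = c).card : ℤ) - 1) ≤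
        ∑ c ∈ Y, (((univ.filter fun u => f u s = c).card : ℤ) - 1) := by
      refine sum_le_sum_of_subset_of_nonneg hTY fun c hc _ => ?_
      have := hge c hc
      have h3 : (1 : ℤ) ≤ ((univ.filter fun u => f u s = c).card : ℤ) := by exact_mod_cast this
      linarith
    have hpt : ∑ c ∈ T', (1 - (if (univ.filter fun u => f u s = c).card = 1 then (1 : ℤ) else 0)) ≤
        ∑ c ∈ T', (((univ.filter fun u => f u s = c).card : ℤ) - 1) := by
      refine sum_le_sum fun c hc => ?_
      have h4 := hge c (hTY hc)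
      by_cases h5 : (univ.filter fun u => f u s = c).card = 1
      · rw [if_pos h5, h5]
        norm_num
      · rw [if_neg h5]
        have h6 : 2 ≤ (univ.filter fun u => f u s = c).card := by omega
        have h7 : (2 : ℤ) ≤ ((univ.filter fun u => f u s = c).card : ℤ) := by exact_mod_cast h6
        linarith
    rw [sum_sub_distrib, sum_const, nsmul_eq_mul, mul_one, ← sum_filter, sum_const,
      nsmul_eq_mul, mul_one] at hpt
    linarith
  have hcard : (((S ×ˢ T').filter fun p => (univ.filter fun u => f u p.1 = p.2).card = 1).card : ℤ) =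
      ∑ s ∈ S, ((T'.filter fun c => (univ.filter fun u => f u s = c).card = 1).card : ℤ) := by
    have h1 : ((S ×ˢ T').filter fun p => (univ.filter fun u => f u p.1 = p.2).card = 1).card =
        ∑ s ∈ S, (T'.filter fun c => (univ.filter fun u => f u s = c).card = 1).card := by
      rw [card_filter, sum_product]
      refine sum_congr rfl fun s _ => ?_
      rw [card_filter]
    rw [h1]
    push_cast
    rfl
  rw [hcard]
  calc (S.card : ℤ) * ((T'.card : ℤ) - (Fintype.card ι - Y.card))
      = ∑ _s ∈ S, ((T'.card : ℤ) - (Fintype.card ι - Y.card)) := by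
        rw [sum_const, nsmul_eq_mul]
    _ ≤ _ := sum_le_sum hrow

end Pool.Agent.H152.AUG
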